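import Pool.Agent.Y714.KE.Cusp
import Pool.Agent.Y714.KE.Bas

set_option autoImplicit false
set_option linter.unusedSectionVars false
set_option linter.unusedVariables false

/-! Project KE, job RBJ: counting the lattices of a cusp cell. -/

namespace Pool.Agent.Y901.KE

open Pool.Agent.Y714.KE
open Pool.Agent.Y714.KF (FI sp ct nm pm ext br gl ubas qf bk el sg bf)
open NumberField FractionalIdeal Module Finset ComplexConjugate MeasureTheory Filter Topology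
open scoped nonZeroDivisors

section

/-- Integral points in a bounded set with scales. -/
theorem finite_pts {κ : Type} [Fintype κ] (D : Set (κ → ℝ)) (hD : Bornology.IsBounded D)
    (Y : κ → ℝ) (hY : ∀ k, 0 < Y k) : {z : κ → ℤ | (fun i => (z i : ℝ) / Y i) ∈ D}.Finite := by
  classical
  obtain ⟨R, hR⟩ := hD.exists_norm_le
  choose N hN using fun i => exists_nat_ge (R * Y i)
  refine (Set.Finite.pi' (t := fun i : κ => Set.Icc (-(N i : ℤ)) (N i))
    (fun _ => Set.finite_Icc _ _)).subset ?_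
  intro z hz i
  have h1 := hR _ hz
  have h2 : ‖(z i : ℝ) / Y i‖ ≤ R := (norm_le_pi_norm (fun i => (z i : ℝ) / Y i) i).trans h1
  rw [Real.norm_eq_abs, abs_div, abs_of_pos (hY i), div_le_iff₀ (hY i)] at h2
  have h3 := abs_le.1 (h2.trans (hN i))
  constructor
  · exact_mod_cast h3.1
  · exact_mod_cast h3.2

/-- The integers in a closed interval. -/
theorem int_count (Q B L : ℝ) (hQ : 0 < Q) (hL : 0 ≤ L) :
    {k : ℤ | 0 ≤ (k : ℝ) * Q + B ∧ (k : ℝ) * Q + B ≤ L * Q}.Finite ∧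
    L - 1 ≤ ({k : ℤ | 0 ≤ (k : ℝ) * Q + B ∧ (k : ℝ) * Q + B ≤ L * Q}.ncard : ℝ) ∧
    ({k : ℤ | 0 ≤ (k : ℝ) * Q + B ∧ (k : ℝ) * Q + B ≤ L * Q}.ncard : ℝ) ≤ L + 1 := by
  have h1 : {k : ℤ | 0 ≤ (k : ℝ) * Q + B ∧ (k : ℝ) * Q + B ≤ L * Q} =
      ↑(Finset.Icc ⌈-B / Q⌉ ⌊L - B / Q⌋) := by
    ext k
    rw [Finset.coe_Icc, Set.mem_Icc, Int.ceil_le, Int.le_floor, Set.mem_ofPred_eq,
      div_le_iff₀ hQ, le_sub_iff_add_le]
    constructor
    · rintro ⟨h1, h2⟩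
      refine ⟨by linarith, ?_⟩
      have : (k : ℝ) + B / Q = ((k : ℝ) * Q + B) / Q := by field_simp
      rw [this, div_le_iff₀ hQ]
      exact h2
    · rintro ⟨h1, h2⟩
      refine ⟨by linarith, ?_⟩
      have : (k : ℝ) + B / Q = ((k : ℝ) * Q + B) / Q := by field_simp
      rw [this, div_le_iff₀ hQ] at h2
      exact h2
  rw [h1]
  refine ⟨Finset.finite_toSet _, ?_⟩
  rw [Set.ncard_coe_finset, Int.card_Icc]
  have h2 : -B / Q ≤ ⌈-B / Q⌉ := Int.le_ceil _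
  have h3 : (⌈-B / Q⌉ : ℝ) < -B / Q + 1 := Int.ceil_lt_add_one _
  have h4 : (⌊L - B / Q⌋ : ℝ) ≤ L - B / Q := Int.floor_le _
  have h5 : L - B / Q - 1 < (⌊L - B / Q⌋ : ℝ) := Int.sub_one_lt_floor _
  have h6 : -B / Q = -(B / Q) := by ring
  rw [h6] at h2 h3
  rw [h6]
  have h7 : ((⌊L - B / Q⌋ + 1 - ⌈-(B / Q)⌉).toNat : ℝ) =
      max ((⌊L - B / Q⌋ + 1 - ⌈-(B / Q)⌉ : ℤ) : ℝ) 0 := by
    have := Int.toNat_eq_max (⌊L - B / Q⌋ + 1 - ⌈-(B / Q)⌉)
    have h8 : (((⌊L - B / Q⌋ + 1 - ⌈-(B / Q)⌉).toNat : ℤ) : ℝ) =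
      ((max (⌊L - B / Q⌋ + 1 - ⌈-(B / Q)⌉) 0 : ℤ) : ℝ) := by rw [this]
    rw [Int.cast_natCast] at h8
    rw [h8, Int.cast_max, Int.cast_zero]
  rw [h7]
  push_cast
  constructor
  · refine le_max_of_le_left ?_
    linarith
  · refine max_le ?_ ?_
    · linarith
    · linarith

/-- The parameters of the bases of a lattice in a cusp cell. -/
def TT (Q B L : ℝ) : Set (ℤ × ℤ) :=
  {p | (p.1 = 1 ∨ p.1 = -1) ∧ 0 ≤ (p.1 : ℝ) * ((p.2 : ℝ) * Q + B) ∧
    (p.1 : ℝ) * ((p.2 : ℝ) * Q + B) ≤ L * Q}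

theorem TT_card (Q B L : ℝ) (hQ : 0 < Q) (hL : 0 ≤ L) : (TT Q B L).Finite ∧
    2 * (L - 1) ≤ ((TT Q B L).ncard : ℝ) ∧ ((TT Q B L).ncard : ℝ) ≤ 2 * (L + 1) := by
  obtain ⟨f1, a1, b1⟩ := int_count Q B L hQ hL
  obtain ⟨f2, a2, b2⟩ := int_count Q (-B) L hQ hL
  set A1 := {k : ℤ | 0 ≤ (k : ℝ) * Q + B ∧ (k : ℝ) * Q + B ≤ L * Q} with hA1
  set A2 := {k : ℤ | 0 ≤ (k : ℝ) * Q + -B ∧ (k : ℝ) * Q + -B ≤ L * Q} with hA2
  have h1 : TT Q B L = (fun k => ((1 : ℤ), k)) '' A1 ∪ (fun k => ((-1 : ℤ), -k)) '' A2 := by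
    ext ⟨m, k⟩
    simp only [TT, Set.mem_ofPred_eq, Set.mem_union, Set.mem_image, Prod.mk.injEq, hA1, hA2]
    constructor
    · rintro ⟨rfl | rfl, h2, h3⟩
      · left
        push_cast at h2 h3
        exact ⟨k, ⟨by linarith, by linarith⟩, rfl, rfl⟩
      · right
        push_cast at h2 h3
        refine ⟨-k, ⟨?_, ?_⟩, rfl, neg_neg k⟩
        · push_cast
          linarith
        · push_cast
          linarith
    · rintro (⟨x, ⟨h2, h3⟩, rfl, rfl⟩ | ⟨x, ⟨h2, h3⟩, rfl, rfl⟩)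
      · refine ⟨Or.inl rfl, ?_, ?_⟩
        · push_cast
          linarith
        · push_cast
          linarith
      · refine ⟨Or.inr rfl, ?_, ?_⟩
        · push_cast
          linarith
        · push_cast
          linarith
  have i1 : Function.Injective (fun k : ℤ => ((1 : ℤ), k)) := fun x y h => (Prod.mk.inj h).2
  have i2 : Function.Injective (fun k : ℤ => ((-1 : ℤ), -k)) := fun x y h =>
    neg_injective (Prod.mk.inj h).2
  have hd : Disjoint ((fun k => ((1 : ℤ), k)) '' A1) ((fun k => ((-1 : ℤ), -k)) '' A2) := by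
    rw [Set.disjoint_left]
    rintro _ ⟨x, _, rfl⟩ ⟨y, _, h⟩
    have := (Prod.mk.inj h).1
    omega
  have hc : (TT Q B L).ncard = A1.ncard + A2.ncard := by
    rw [h1, Set.ncard_union_eq hd (f1.image _) (f2.image _), Set.ncard_image_of_injective _ i1,
      Set.ncard_image_of_injective _ i2]
  refine ⟨?_, ?_, ?_⟩
  · rw [h1]
    exact (f1.image _).union (f2.image _)
  · rw [hc]
    push_cast
    linarith
  · rw [hc]
    push_cast
    linarith

/-- Upper bound by the fibres. -/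
theorem fib_upper {α β : Type} (E : Set α) (hE : E.Finite) (A : Set β) (hA : A.Finite)
    (f : α → β) (hf : ∀ z ∈ E, f z ∈ A) (c : ℝ)
    (hc : ∀ M ∈ A, ({z ∈ E | f z = M}.ncard : ℝ) ≤ c) : (E.ncard : ℝ) ≤ c * A.ncard := by
  classical
  obtain ⟨S, rfl⟩ := hE.exists_finset_coe
  obtain ⟨T, rfl⟩ := hA.exists_finset_coe
  rw [Set.ncard_coe_finset, Set.ncard_coe_finset,
    Finset.card_eq_sum_card_fiberwise (f := f) (s := S) (t := T) (fun z hz => hf z hz)]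
  push_cast
  calc ∑ M ∈ T, ((S.filter (fun z => f z = M)).card : ℝ) ≤ ∑ M ∈ T, c := by
        refine Finset.sum_le_sum fun M hM => ?_
        have h1 := hc M (by exact_mod_cast hM)
        have h2 : {z ∈ (S : Set α) | f z = M} = ↑(S.filter (fun z => f z = M)) := by
          ext z
          simp
        rw [h2, Set.ncard_coe_finset] at h1
        exact h1
    _ = c * T.card := by rw [Finset.sum_const, nsmul_eq_mul, mul_comm]

/-- Lower bound by the fibres. -/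
theorem fib_lower {α β : Type} (E : Set α) (hE : E.Finite) (A : Set β) (hA : A.Finite)
    (f : α → β) (c : ℝ)
    (hc : ∀ M ∈ A, c ≤ ({z ∈ E | f z = M}.ncard : ℝ)) : c * A.ncard ≤ (E.ncard : ℝ) := by
  classical
  obtain ⟨S, rfl⟩ := hE.exists_finset_coe
  obtain ⟨T, rfl⟩ := hA.exists_finset_coe
  rw [Set.ncard_coe_finset, Set.ncard_coe_finset]
  calc c * T.card = ∑ M ∈ T, c := by rw [Finset.sum_const, nsmul_eq_mul, mul_comm]
    _ ≤ ∑ M ∈ T, ((S.filter (fun z => f z = M)).card : ℝ) := by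
        refine Finset.sum_le_sum fun M hM => ?_
        have h1 := hc M (by exact_mod_cast hM)
        have h2 : {z ∈ (S : Set α) | f z = M} = ↑(S.filter (fun z => f z = M)) := by
          ext z
          simp
        rw [h2, Set.ncard_coe_finset] at h1
        exact h1
    _ = ((S.filter (fun z => f z ∈ T)).card : ℝ) := by
        rw [← Finset.sum_card_fiberwise_eq_card_filter]
        push_cast
        rfl
    _ ≤ S.card := by exact_mod_cast Finset.card_filter_le _ _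

variable {s : Type} [Fintype s] [DecidableEq s] {K : s → Type} [∀ i, Field (K i)]
  [∀ i, NumberField (K i)]

theorem sl_inj (j : s) : Function.Injective (sl (K := K) (R := ℤ) j) := by
  intro z w h
  funext k
  have h1 := congrFun h k.1
  unfold sl at h1
  rw [dif_neg k.2, dif_neg k.2] at h1
  exact h1

/-- Elements of a component isomorphic to `ℚ`. -/
theorem el_one {j : s} (hj : finrank ℚ (K j) = 1) (b : Bs K) (l : Fin (finrank ℚ (K j)))
    (z : Fin (finrank ℚ (K j)) → ℤ) : el (b j) z = (z l : K j) * b j l := by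
  have : Subsingleton (Fin (finrank ℚ (K j))) := by
    rw [hj]
    infer_instance
  unfold el
  rw [Finset.sum_eq_single l]
  · intro m _ hm
    exact absurd (Subsingleton.elim m l) hm
  · intro h
    exact absurd (Finset.mem_univ l) h

theorem exists_sl {I : FU K} {b : Bs K} (hb : IsB I b) {j : s} (hj : finrank ℚ (K j) = 1)
    {P : Al K × Al K} (hP : ∀ i, cn P i ≤ cf I i) (h1 : P.1 j = 0)
    (l : Fin (finrank ℚ (K j))) (h2 : P.2 j = b j l) :
    ∃ w : Jx K j → ℤ, pr b (sl j w) = P := by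
  obtain ⟨z, hz⟩ := exists_pr hb hP
  refine ⟨fun k => z k.1, ?_⟩
  have hl : b j l ≠ 0 := (b j).ne_zero l
  have e1 : ∀ m : Fin (finrank ℚ (K j)), z (Sum.inl ⟨j, m⟩) = 0 := by
    intro m
    have h3 : el (b j) (fun m => z (Sum.inl ⟨j, m⟩)) = 0 := by
      rw [← h1, ← hz]
      rfl
    rw [el_one hj b m] at h3
    have h4 := (mul_eq_zero.1 h3).resolve_right ((b j).ne_zero m)
    exact_mod_cast h4
  have e2 : ∀ m : Fin (finrank ℚ (K j)), z (Sum.inr ⟨j, m⟩) = 1 := by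
    intro m
    have : Subsingleton (Fin (finrank ℚ (K j))) := by
      rw [hj]
      infer_instance
    have h3 : el (b j) (fun m => z (Sum.inr ⟨j, m⟩)) = b j l := by
      rw [← h2, ← hz]
      rfl
    rw [el_one hj b m, Subsingleton.elim l m] at h3
    have h4 : ((z (Sum.inr ⟨j, m⟩) : ℤ) : K j) = 1 :=
      mul_right_cancel₀ ((b j).ne_zero m) (by rw [h3, one_mul])
    exact_mod_cast h4
  rw [← hz]
  congr 1
  funext k
  unfold sl
  by_cases h : cm k = j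
  · rw [dif_pos h]
    rcases k with ⟨i, m⟩ | ⟨i, m⟩
    · have h' : i = j := h
      subst h'
      exact (e1 m).symm
    · have h' : i = j := h
      subst h'
      exact (e2 m).symm
  · rw [dif_neg h]

/-- the second component at `j` -/
theorem pr_sl_snd {j : s} (hj : finrank ℚ (K j) = 1) (b : Bs K) (w : Jx K j → ℤ)
    (l : Fin (finrank ℚ (K j))) : (pr b (sl j w)).2 j = b j l := by
  show el (b j) (fun m => sl j w (Sum.inr ⟨j, m⟩)) = b j l
  rw [el_one hj b l]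
  have : sl j w (Sum.inr ⟨j, l⟩) = (1 : ℤ) := by
    unfold sl
    rw [dif_pos (show cm (K := K) (Sum.inr ⟨j, l⟩) = j from rfl)]
    rfl
  rw [this]
  push_cast
  rw [one_mul]

theorem br_scj (h3 : S_SCJ K) (hodd : Odd (dg K)) (hn : 3 ≤ dg K) (b : Bs K) {j : s}
    (hj : finrank ℚ (K j) = 1) (y : s → ℝ) (z : Jx K j → ℤ) :
    (∀ e f : Em K, e ≠ f → br (rw2 b (sl j (scj j y z)) e) (rw2 b (sl j (scj j y z)) f) ≠ 0) ↔
      ND (pr b (sl j z)) := by
  obtain ⟨h4, -⟩ := (h3 hodd hn b j hj).2.2.2 y z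
  refine forall_congr' fun e => forall_congr' fun f => forall_congr' fun _ => ?_
  have h5 : br (rw2 b (sl j (scj j y z)) e) (rw2 b (sl j (scj j y z)) f) =
      ((Real.exp (-(y e.1)) : ℝ) : ℂ) * ((Real.exp (-(y f.1)) : ℝ) : ℂ) *
      (((Real.exp (-(y j)) : ℝ) : ℂ) * ((Real.exp (y j) : ℝ) : ℂ)) *
      br (vc (pr b (sl j z)) e) (vc (pr b (sl j z)) f) := by
    rw [h4 e, h4 f]
    simp only [br, gl, Prod.smul_fst, Prod.smul_snd, smul_eq_mul]
    ring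
  have hE : ∀ t : ℝ, ((Real.exp t : ℝ) : ℂ) ≠ 0 := fun t => by
    exact_mod_cast (Real.exp_pos t).ne'
  rw [h5, mul_ne_zero_iff]
  exact ⟨fun h => h.2, fun h => ⟨mul_ne_zero (mul_ne_zero (hE _) (hE _))
    (mul_ne_zero (hE _) (hE _)), h⟩⟩

theorem tt_pos (y : s → ℝ) : 0 < tt (K := K) y := Real.exp_pos _

theorem mem_Dcj_iff (h3 : S_SCJ K) (hodd : Odd (dg K)) (hn : 3 ≤ dg K) (b : Bs K)
    (κ : Ux K → ℝ) (i₀ : s) {j : s} (hj : finrank ℚ (K j) = 1) (δ : ℝ) (y : s → ℝ)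
    (z : Jx K j → ℤ) :
    scj j y z ∈ Dcj b κ i₀ j δ ↔ δ ^ 2 * Real.exp (2 * y j) ≤ QY y (pr b (sl j z)).1 ∧
      0 ≤ BY y (pr b (sl j z)).1 (pr b (sl j z)).2 ∧
      BY y (pr b (sl j z)).1 (pr b (sl j z)).2 ≤
        Real.exp (-(2 * y j)) * QY y (pr b (sl j z)).1 ∧
      ND (pr b (sl j z)) ∧ pm (vc (pr b (sl j z))) ≤ tt (K := K) y ∧
      (∀ l, κ l ≤ cc (vc (pr b (sl j z))) l ∧ cc (vc (pr b (sl j z))) l ≤ κ l + 1) ∧
      ∀ i, i ≠ i₀ → y i ≤ ui (vc (pr b (sl j z))) i ∧ ui (vc (pr b (sl j z))) i ≤ y i + 1 := by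
  obtain ⟨h4, h5, h6, h7, h8⟩ := (h3 hodd hn b j hj).2.2.2 y z
  have hbr := br_scj h3 hodd hn b hj y z
  have hE : 0 < Real.exp (2 * y j) := Real.exp_pos _
  have h9 : bfA b (lf (sl j (scj j y z))) (lf (sl j (scj j y z))) =
      Real.exp (-(2 * y j)) * QY y (pr b (sl j z)).1 := by
    rw [h6, ← mul_assoc, ← Real.exp_add, neg_add_cancel, Real.exp_zero, one_mul]
  have c1 : δ ^ 2 ≤ bfA b (lf (sl j (scj j y z))) (lf (sl j (scj j y z))) ↔
      δ ^ 2 * Real.exp (2 * y j) ≤ QY y (pr b (sl j z)).1 := by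
    rw [h6, mul_comm (δ ^ 2)]
    exact (mul_le_mul_iff_right₀ hE).symm
  have ht : 0 < tt (K := K) y := tt_pos y
  unfold Dcj
  rw [Set.mem_ofPred_eq, c1, ← h7, h9, hbr]
  refine and_congr_right fun _ => and_congr_right fun _ => and_congr_right fun _ =>
    and_congr_right fun hND => ?_
  obtain ⟨k1, k2, k3⟩ := h8 (hND.pm_pos (by omega))
  rw [k1, k2, div_le_one ht]
  refine and_congr_right fun _ => and_congr_right fun _ => ?_
  refine forall_congr' fun i => forall_congr' fun _ => ?_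
  rw [k3 i, sub_nonneg, sub_le_iff_le_add, add_comm 1 (y i)]

theorem mem_Dmj_iff (h3 : S_SCJ K) (hodd : Odd (dg K)) (hn : 3 ≤ dg K) (b : Bs K)
    (κ : Ux K → ℝ) (i₀ : s) {j : s} (hj : finrank ℚ (K j) = 1) (δ : ℝ) (y : s → ℝ)
    (z : Jx K j → ℤ) :
    scj j y z ∈ Dmj b κ i₀ j δ ↔ δ ^ 2 * Real.exp (2 * y j) < QY y (pr b (sl j z)).1 ∧
      0 < BY y (pr b (sl j z)).1 (pr b (sl j z)).2 ∧
      BY y (pr b (sl j z)).1 (pr b (sl j z)).2 <
        Real.exp (-(2 * y j)) * QY y (pr b (sl j z)).1 ∧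
      ND (pr b (sl j z)) ∧ pm (vc (pr b (sl j z))) < tt (K := K) y ∧
      (∀ l, κ l < cc (vc (pr b (sl j z))) l ∧ cc (vc (pr b (sl j z))) l < κ l + 1) ∧
      ∀ i, i ≠ i₀ → y i < ui (vc (pr b (sl j z))) i ∧ ui (vc (pr b (sl j z))) i < y i + 1 := by
  obtain ⟨h4, h5, h6, h7, h8⟩ := (h3 hodd hn b j hj).2.2.2 y z
  have hbr := br_scj h3 hodd hn b hj y z
  have hE : 0 < Real.exp (2 * y j) := Real.exp_pos _
  have h9 : bfA b (lf (sl j (scj j y z))) (lf (sl j (scj j y z))) =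
      Real.exp (-(2 * y j)) * QY y (pr b (sl j z)).1 := by
    rw [h6, ← mul_assoc, ← Real.exp_add, neg_add_cancel, Real.exp_zero, one_mul]
  have c1 : δ ^ 2 < bfA b (lf (sl j (scj j y z))) (lf (sl j (scj j y z))) ↔
      δ ^ 2 * Real.exp (2 * y j) < QY y (pr b (sl j z)).1 := by
    rw [h6, mul_comm (δ ^ 2)]
    exact (mul_lt_mul_iff_right₀ hE).symm
  have ht : 0 < tt (K := K) y := tt_pos y
  unfold Dmj
  rw [Set.mem_ofPred_eq, c1, ← h7, h9, hbr]
  refine and_congr_right fun _ => and_congr_right fun _ => and_congr_right fun _ =>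
    and_congr_right fun hND => ?_
  obtain ⟨k1, k2, k3⟩ := h8 (hND.pm_pos (by omega))
  rw [k1, k2, div_lt_one ht]
  refine and_congr_right fun _ => and_congr_right fun _ => ?_
  refine forall_congr' fun i => forall_congr' fun _ => ?_
  rw [k3 i, sub_pos, sub_lt_iff_lt_add, add_comm 1 (y i)]

theorem Dmj_Dcj (b : Bs K) (κ : Ux K → ℝ) (i₀ j : s) (δ : ℝ) :
    Dmj b κ i₀ j δ ⊆ Dcj b κ i₀ j δ := by
  rintro u ⟨h1, h2, h3, h4, h5, h6, h7⟩
  exact ⟨h1.le, h2.le, h3.le, h4, h5.le, fun l => ⟨(h6 l).1.le, (h6 l).2.le⟩,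
    fun i hi => ⟨(h7 i hi).1.le, (h7 i hi).2.le⟩⟩

/-- changing the basis: `(m al, k al + be)` -/
theorem QY_chg (y : s → ℝ) (m : ℤ) (hm : m = 1 ∨ m = -1) (x x' : Al K) :
    QY y (m • x + (0 : ℤ) • x') = QY y x := by
  rw [QY_comb]
  rcases hm with rfl | rfl <;> push_cast <;> ring

theorem BY_chg (y : s → ℝ) (m k : ℤ) (x x' : Al K) :
    BY y (m • x + (0 : ℤ) • x') (k • x + (1 : ℤ) • x') = m * (k * QY y x + BY y x x') := by
  rw [BY_comb]
  push_cast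
  ring

/-- two bases with the same lattice -/
theorem same_lattice {b : Bs K} {j : s} (hj : finrank ℚ (K j) = 1)
    {z w : Jx K j → ℤ} (hz1 : (pr b (sl j z)).1 j = 0) (hw1 : (pr b (sl j w)).1 j = 0)
    (hIN : IN (pr b (sl j z))) (h : LT (pr b (sl j z)) = LT (pr b (sl j w))) :
    ∃ m k : ℤ, (m = 1 ∨ m = -1) ∧ pr b (sl j w) = glz m 0 k 1 (pr b (sl j z)) := by
  obtain ⟨m, n, k, l, hdet, hQ⟩ := LT_mat hIN h
  have hl : ∃ l' : Fin (finrank ℚ (K j)), True := by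
    rw [hj]
    exact ⟨0, trivial⟩
  obtain ⟨l', -⟩ := hl
  have hb0 : b j l' ≠ 0 := (b j).ne_zero l'
  have e1 := congrFun (congrArg Prod.fst hQ) j
  have e2 := congrFun (congrArg Prod.snd hQ) j
  simp only [glz, Pi.add_apply, Pi.smul_apply] at e1 e2
  rw [hw1, hz1, pr_sl_snd hj b z l', smul_zero, zero_add, zsmul_eq_mul] at e1
  rw [pr_sl_snd hj b w l', hz1, pr_sl_snd hj b z l', smul_zero, zero_add, zsmul_eq_mul] at e2
  have hn : n = 0 := by
    have := (mul_eq_zero.1 e1.symm).resolve_right hb0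
    exact_mod_cast this
  have hl1 : l = 1 := by
    have : ((l : ℤ) : K j) = 1 := mul_right_cancel₀ hb0 (by rw [← e2, one_mul])
    exact_mod_cast this
  subst hn hl1
  refine ⟨m, k, ?_, hQ⟩
  omega

theorem glz_inj {P : Al K × Al K} (hP : IN P) {m k m' k' : ℤ}
    (h : glz m 0 k 1 P = glz m' 0 k' 1 P) : m = m' ∧ k = k' := by
  have e1 := congrArg Prod.fst h
  have e2 := congrArg Prod.snd h
  simp only [glz] at e1 e2
  constructor
  · have := (hP.int (m - m') 0 (by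
      rw [sub_smul]
      have h1 : m • P.1 + (0 : ℤ) • P.2 = m' • P.1 + (0 : ℤ) • P.2 := e1
      rw [zero_smul, add_zero, add_zero] at h1
      rw [h1, sub_self, zero_smul, add_zero])).1
    omega
  · have := (hP.int (k - k') 0 (by
      rw [sub_smul]
      have h1 : k • P.1 + (1 : ℤ) • P.2 = k' • P.1 + (1 : ℤ) • P.2 := e2
      have h2 := add_right_cancel h1
      rw [h2, sub_self, zero_smul, add_zero])).1
    omega

/-- the bases in the closed region of a lattice: upper bound -/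
theorem fibU (h3 : S_SCJ K) (hodd : Odd (dg K)) (hn : 3 ≤ dg K) (b : Bs K)
    (κ : Ux K → ℝ) (i₀ : s) {j : s} (hj : finrank ℚ (K j) = 1) (δ : ℝ) (hδ : 0 < δ) (y : s → ℝ)
    (M : Submodule ℤ (Al K)) (E : Set (Jx K j → ℤ)) (hE : ∀ z ∈ E, scj j y z ∈ Dcj b κ i₀ j δ) :
    ({z ∈ E | LT (pr b (sl j z)) = M}.ncard : ℝ) ≤
      2 * (Real.exp (-(2 * y j)) + 1) := by
  have hL : 0 < Real.exp (-(2 * y j)) := Real.exp_pos _
  rcases Set.eq_empty_or_nonempty {z ∈ E | LT (pr b (sl j z)) = M} with h0 | ⟨z, hzE, hzM⟩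
  · rw [h0, Set.ncard_empty]
    push_cast
    linarith
  have hz := (mem_Dcj_iff h3 hodd hn b κ i₀ hj δ y z).1 (hE z hzE)
  have hfst : ∀ w : Jx K j → ℤ, (pr b (sl j w)).1 j = 0 := fun w =>
    ((h3 hodd hn b j hj).2.2.2 y w).2.1
  have hIN := hz.2.2.2.1.ind (show 2 ≤ dg K by omega)
  have hQ : 0 < QY y (pr b (sl j z)).1 :=
    lt_of_lt_of_le (by positivity) hz.1
  obtain ⟨f1, f2, f3⟩ := TT_card (QY y (pr b (sl j z)).1)
    (BY y (pr b (sl j z)).1 (pr b (sl j z)).2) (Real.exp (-(2 * y j))) hQ hL.le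
  refine le_trans ?_ f3
  have hinj : Function.Injective (fun w : Jx K j → ℤ => pr b (sl j w)) := fun w w' h =>
    sl_inj j (pr_inj b h)
  have h1 : (fun w : Jx K j → ℤ => pr b (sl j w)) '' {z ∈ E | LT (pr b (sl j z)) = M} ⊆
      (fun p : ℤ × ℤ => glz p.1 0 p.2 1 (pr b (sl j z))) ''
        TT (QY y (pr b (sl j z)).1) (BY y (pr b (sl j z)).1 (pr b (sl j z)).2)
          (Real.exp (-(2 * y j))) := by
    rintro _ ⟨w, ⟨hwE, hwM⟩, rfl⟩
    obtain ⟨m, k, hm, hw⟩ := same_lattice hj (hfst z) (hfst w) hIN (hzM.trans hwM.symm)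
    refine ⟨(m, k), ⟨hm, ?_⟩, hw.symm⟩
    have hw2 := (mem_Dcj_iff h3 hodd hn b κ i₀ hj δ y w).1 (hE w hwE)
    obtain ⟨-, k2, k3, -⟩ := hw2
    rw [hw] at k2 k3
    simp only [glz] at k2 k3
    rw [BY_chg] at k2 k3
    rw [QY_chg y m hm] at k3
    exact ⟨k2, k3⟩
  rw [← Set.ncard_image_of_injective _ hinj]
  exact_mod_cast (Set.ncard_le_ncard h1 (f1.image _)).trans (Set.ncard_image_le f1)

/-- the bases in the closed region of a lattice: lower bound -/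
theorem fibL (h3 : S_SCJ K) (hodd : Odd (dg K)) (hn : 3 ≤ dg K) {I : FU K} {b : Bs K}
    (hb : IsB I b) (κ : Ux K → ℝ) (i₀ : s) {j : s} (hj : finrank ℚ (K j) = 1) (δ : ℝ)
    (hδ : 0 < δ) (y : s → ℝ) (M : Submodule ℤ (Al K)) (hM : M ∈ SY κ i₀ (cf I) y)
    (hx1 : ∀ x ∈ M, x ≠ 0 → δ ^ 2 * Real.exp (2 * y j) < QY y x)
    (hx2 : ∃ x ∈ M, ∃ l : Fin (finrank ℚ (K j)), x j = b j l)
    (E : Set (Jx K j → ℤ)) (hEf : E.Finite)
    (hE : ∀ z, scj j y z ∈ Dcj b κ i₀ j δ → LT (pr b (sl j z)) = M → z ∈ E) :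
    2 * (Real.exp (-(2 * y j)) - 1) ≤
      ({z ∈ E | LT (pr b (sl j z)) = M}.ncard : ℝ) := by
  have hL : 0 < Real.exp (-(2 * y j)) := Real.exp_pos _
  obtain ⟨P, hMP, hPI, hPND, hPNZ, hPu, hPpm⟩ := hM
  obtain ⟨x, hxM, l, hxl⟩ := hx2
  obtain ⟨hI1, hI2⟩ := cn_le.1 hPI
  obtain ⟨z1, hz1⟩ := (hb j (P.1 j)).1 (hI1 j)
  obtain ⟨z2, hz2⟩ := (hb j (P.2 j)).1 (hI2 j)
  rw [el_one hj b l] at hz1 hz2
  have hb0 : b j l ≠ 0 := (b j).ne_zero l
  rw [hMP] at hxM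
  obtain ⟨a, c, hac⟩ := mem_LT.1 hxM
  have hdet : a * z1 l + c * z2 l = 1 := by
    have h1 := congrFun hac j
    rw [hxl, Pi.add_apply, Pi.smul_apply, Pi.smul_apply, zsmul_eq_mul, zsmul_eq_mul, hz1, hz2]
      at h1
    have h2 : ((a * z1 l + c * z2 l : ℤ) : K j) = 1 := by
      refine mul_right_cancel₀ hb0 ?_
      rw [one_mul]
      push_cast
      linear_combination h1
    exact_mod_cast h2
  -- the special basis
  obtain ⟨Q, hQ⟩ : ∃ Q, Q = glz (z2 l) (-(z1 l)) a c P := ⟨_, rfl⟩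
  have hQL : LT Q = LT P := by
    rw [hQ]
    exact LT_glz _ _ _ _ (Or.inl (by linear_combination hdet)) P
  have hQ1 : Q.1 j = 0 := by
    rw [hQ]
    simp only [glz]
    rw [Pi.add_apply, Pi.smul_apply, Pi.smul_apply, zsmul_eq_mul, zsmul_eq_mul, hz1, hz2]
    push_cast
    ring
  have hQ2 : Q.2 j = b j l := by
    rw [hQ, ← hxl, ← hac]
    rfl
  obtain ⟨i1, i2, i3, i4, -⟩ := LT_inv hodd (show 2 ≤ dg K by omega) hPND hQL.symm
  have hQIN : IN Q := i1.ind (show 2 ≤ dg K by omega)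
  have hQpos : 0 < QY y Q.1 := by
    refine QY_pos y ?_
    intro h0
    have := (hQIN.int 1 0 (by rw [h0, smul_zero, zero_smul, add_zero])).1
    omega
  obtain ⟨f1, f2, f3⟩ := TT_card (QY y Q.1) (BY y Q.1 Q.2) (Real.exp (-(2 * y j))) hQpos hL.le
  refine f2.trans ?_
  have hginj : Function.Injective (fun p : ℤ × ℤ => glz p.1 0 p.2 1 Q) := by
    intro p p' h
    have := glz_inj hQIN h
    exact Prod.ext this.1 this.2
  have h1 : (fun p : ℤ × ℤ => glz p.1 0 p.2 1 Q) ''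
      TT (QY y Q.1) (BY y Q.1 Q.2) (Real.exp (-(2 * y j))) ⊆
      (fun w : Jx K j → ℤ => pr b (sl j w)) '' {z ∈ E | LT (pr b (sl j z)) = M} := by
    rintro _ ⟨⟨m, k⟩, ⟨hm, hk1, hk2⟩, rfl⟩
    have hRL : LT (glz m 0 k 1 Q) = LT P := by
      rw [LT_glz _ _ _ _ (by omega), hQL]
    have hRI : ∀ i, cn (glz m 0 k 1 Q) i ≤ cf I i := by
      rw [cn_congr hRL]
      exact hPI
    have hR1 : (glz m 0 k 1 Q).1 j = 0 := by
      simp only [glz]
      rw [Pi.add_apply, Pi.smul_apply, Pi.smul_apply, hQ1, smul_zero, zero_smul, add_zero]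
    have hR2 : (glz m 0 k 1 Q).2 j = b j l := by
      simp only [glz]
      rw [Pi.add_apply, Pi.smul_apply, Pi.smul_apply, hQ1, smul_zero, one_smul, zero_add, hQ2]
    obtain ⟨w, hw⟩ := exists_sl hb hj hRI hR1 l hR2
    have hwM : LT (pr b (sl j w)) = M := by rw [hw, hRL, hMP]
    refine ⟨w, ⟨hE w ?_ hwM, hwM⟩, hw⟩
    obtain ⟨j1, j2, j3, j4, -⟩ := LT_inv hodd (show 2 ≤ dg K by omega) hPND hRL.symm
    rw [mem_Dcj_iff h3 hodd hn b κ i₀ hj δ y w, hw, j2, j3, j4]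
    have hR10 : (glz m 0 k 1 Q).1 ≠ 0 := by
      intro h0
      have h5 := (j1.ind (show 2 ≤ dg K by omega)).int 1 0
        (by rw [h0, smul_zero, zero_smul, add_zero])
      omega
    refine ⟨(hx1 _ ?_ hR10).le, ?_, ?_, j1, hPpm, fun l => ⟨(hPNZ l).1, (hPNZ l).2.le⟩,
      fun i hi => ⟨(hPu i hi).1, (hPu i hi).2.le⟩⟩
    · rw [hMP, ← hRL]
      exact fst_mem_LT _
    · simp only [glz]
      rw [BY_chg]
      exact hk1
    · simp only [glz]
      rw [BY_chg, QY_chg y m hm]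
      exact hk2
  have hfin : {z ∈ E | LT (pr b (sl j z)) = M}.Finite := hEf.subset fun z hz => hz.1
  rw [← Set.ncard_image_of_injective _ hginj]
  exact_mod_cast (Set.ncard_le_ncard h1 (hfin.image _)).trans (Set.ncard_image_le hfin)

/-- Counting the lattices of a cusp cell. -/
theorem rbj (h1 : S_T1 K) (h2 : S_OPJ K) (h3 : S_SCJ K) : S_RBJ K := by
  classical
  intro hodd hn I b hb κ i₀ j hj δ hδ y hy Pr
  obtain ⟨C, _, hT1⟩ := h1 hodd hn κ i₀ I
  have hSY : (SY κ i₀ (cf I) y).Finite := (hT1 y).1.1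
  have hbd := (h2 hodd hn b κ i₀ j hj δ hδ).2
  have hGfin : {z : Jx K j → ℤ | scj j y z ∈ Dcj b κ i₀ j δ}.Finite :=
    finite_pts _ hbd (ysc j y) (fun k => Real.exp_pos _)
  set L := Real.exp (-(2 * y j)) with hLdef
  have hL1 : 1 ≤ L := by
    rw [hLdef]
    exact Real.one_le_exp (by linarith)
  set A : Set (Submodule ℤ (Al K)) := {M ∈ SY κ i₀ (cf I) y | Pr M} with hA
  set E : Set (Jx K j → ℤ) := {z | scj j y z ∈ Dmj b κ i₀ j δ ∧ Pr (LT (pr b (sl j z)))} with hE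
  set X1 : Set (Submodule ℤ (Al K)) := {M ∈ SY κ i₀ (cf I) y | ∃ x ∈ M, x ≠ 0 ∧
        QY y x ≤ δ ^ 2 * Real.exp (2 * y j)} with hX1
  set X2 : Set (Submodule ℤ (Al K)) := {M ∈ SY κ i₀ (cf I) y | Pr M ∧ ∀ x ∈ M,
    ∀ l : Fin (finrank ℚ (K j)), x j ≠ b j l} with hX2
  set Bd : Set (Jx K j → ℤ) := {z | scj j y z ∈ Dcj b κ i₀ j δ \ Dmj b κ i₀ j δ} with hBd
  have hAfin : A.Finite := hSY.subset fun M hM => hM.1
  have hX1fin : X1.Finite := hSY.subset fun M hM => hM.1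
  have hX2fin : X2.Finite := hSY.subset fun M hM => hM.1
  have hEfin : E.Finite := hGfin.subset fun z hz => Dmj_Dcj b κ i₀ j δ hz.1
  have hBdfin : Bd.Finite := hGfin.subset fun z hz => hz.1
  -- upper bound
  have hup : (E.ncard : ℝ) ≤ 2 * (L + 1) * A.ncard := by
    refine fib_upper E hEfin A hAfin (fun z => LT (pr b (sl j z))) ?_ _ ?_
    · rintro z ⟨hz1, hz2⟩
      rw [mem_Dmj_iff h3 hodd hn b κ i₀ hj δ y z] at hz1
      obtain ⟨k1, k2, k3, k4, k5, k6, k7⟩ := hz1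
      exact ⟨⟨pr b (sl j z), rfl, cn_pr_le hb _, k4, fun l => ⟨(k6 l).1.le, (k6 l).2⟩,
        fun i hi => ⟨(k7 i hi).1.le, (k7 i hi).2⟩, k5.le⟩, hz2⟩
    · intro M hM
      exact fibU h3 hodd hn b κ i₀ hj δ hδ y M E fun z hz => Dmj_Dcj b κ i₀ j δ hz.1
  -- lower bound
  have hlow : 2 * (L - 1) * ((A \ (X1 ∪ X2)).ncard : ℝ) ≤ ((E ∪ Bd).ncard : ℝ) := by
    refine fib_lower (E ∪ Bd) (hEfin.union hBdfin) (A \ (X1 ∪ X2)) (hAfin.subset fun M hM => hM.1)
      (fun z => LT (pr b (sl j z))) _ ?_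
    rintro M ⟨⟨hM1, hM2⟩, hM3⟩
    refine fibL h3 hodd hn hb κ i₀ hj δ hδ y M hM1 ?_ ?_ (E ∪ Bd) (hEfin.union hBdfin) ?_
    · intro x hx hx0
      by_contra hcon
      exact hM3 (Or.inl ⟨hM1, x, hx, hx0, not_lt.1 hcon⟩)
    · by_contra hcon
      exact hM3 (Or.inr ⟨hM1, hM2, fun x hx l h => hcon ⟨x, hx, l, h⟩⟩)
    · intro z hz hzM
      by_cases hzm : scj j y z ∈ Dmj b κ i₀ j δ
      · left
        refine ⟨hzm, ?_⟩
        rw [hzM]
        exact hM2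
      · right
        exact ⟨hz, hzm⟩
  have hc1 : (A.ncard : ℝ) ≤ (A \ (X1 ∪ X2)).ncard + (X1.ncard + X2.ncard) := by
    have h4 : A.ncard ≤ (A \ (X1 ∪ X2)).ncard + (X1 ∪ X2).ncard := by
      refine le_trans (Set.ncard_le_ncard (t := (A \ (X1 ∪ X2)) ∪ (X1 ∪ X2)) ?_ ?_)
        (Set.ncard_union_le _ _)
      · intro M hM
        by_cases h : M ∈ X1 ∪ X2
        · exact Or.inr h
        · exact Or.inl ⟨hM, h⟩
      · exact (hAfin.subset fun M hM => hM.1).union (hX1fin.union hX2fin)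
    have h5 : (X1 ∪ X2).ncard ≤ X1.ncard + X2.ncard := Set.ncard_union_le _ _
    exact_mod_cast h4.trans (by omega)
  have hc2 : ((E ∪ Bd).ncard : ℝ) ≤ E.ncard + Bd.ncard := by
    exact_mod_cast Set.ncard_union_le _ _
  have hc3 : (A.ncard : ℝ) ≤ (SY κ i₀ (cf I) y).ncard := by
    exact_mod_cast Set.ncard_le_ncard (s := A) (fun M (hM : M ∈ A) => hM.1) hSY
  have hX1n : (0 : ℝ) ≤ X1.ncard := Nat.cast_nonneg _
  have hX2n : (0 : ℝ) ≤ X2.ncard := Nat.cast_nonneg _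
  have hBn : (0 : ℝ) ≤ Bd.ncard := Nat.cast_nonneg _
  have hAn : (0 : ℝ) ≤ A.ncard := Nat.cast_nonneg _
  have hprod : 0 ≤ L * (X1.ncard + X2.ncard : ℝ) := by positivity
  have hlow2 : 2 * (L - 1) * ((A.ncard : ℝ) - (X1.ncard + X2.ncard)) ≤
      2 * (L - 1) * ((A \ (X1 ∪ X2)).ncard : ℝ) := by
    refine mul_le_mul_of_nonneg_left ?_ (by linarith)
    linarith
  rw [abs_le]
  constructor
  · nlinarith
  · nlinarith

end

end Pool.Agent.Y901.KE
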